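import Mathlib

/-!
# No countable group contains all countable (even all 3-generator) right-orderable groups
-/

namespace Pool.Agent.Results.MP_49314d_al.NoUniversalRO

universe u v

/-- A group is right-orderable if it carries a total order invariant under right
multiplication. -/
def RightOrderable (G : Type u) [Group G] : Prop :=
  ∃ o : LinearOrder G, ∀ x y z : G, o.le x y → o.le (x * z) (y * z)

/-- Right-orderability passes to groups that embed. -/
theorem RightOrderable.of_injective {G : Type u} {H : Type v} [Group G] [Group H]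
    (φ : G →* H) (hφ : Function.Injective φ) (hH : RightOrderable H) : RightOrderable G := by
  obtain ⟨o, ho⟩ := hH
  refine ⟨LinearOrder.lift' φ hφ, fun x y z h => ?_⟩
  have h' : o.le (φ x) (φ y) := h
  change o.le (φ (x * z)) (φ (y * z))
  rw [map_mul, map_mul]
  exact ho _ _ _ h'

/-- The group of order automorphisms of a linear order is right-orderable. -/
theorem rightOrderable_orderIso (L : Type u) [LinearOrder L] : RightOrderable (L ≃o L) := by
  classical
  let ι := (Cardinal.mk L).ord.ToType
  have hcard : Cardinal.mk ι = Cardinal.mk L := Cardinal.mk_ord_toType _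
  obtain ⟨e⟩ := Cardinal.eq.1 hcard
  let F : (L ≃o L) → Lex (ι → L) := fun g => toLex (fun i => g⁻¹ (e i))
  have hF : Function.Injective F := by
    intro g h hgh
    have h1 : (fun i => g⁻¹ (e i)) = (fun i => h⁻¹ (e i)) := toLex.injective hgh
    have h2 : g⁻¹ = h⁻¹ := by
      ext x
      have := congrFun h1 (e.symm x)
      simpa using this
    exact inv_injective h2
  refine ⟨LinearOrder.lift' F hF, fun x y z h => ?_⟩
  have h' : F x ≤ F y := h
  change F (x * z) ≤ F (y * z)
  rcases h'.lt_or_eq with hlt | heq
  · apply le_of_lt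
    obtain ⟨i, hi1, hi2⟩ := hlt
    refine ⟨i, fun j hj => ?_, ?_⟩
    · have := hi1 j hj
      change x⁻¹ (e j) = y⁻¹ (e j) at this
      change (x * z)⁻¹ (e j) = (y * z)⁻¹ (e j)
      rw [mul_inv_rev, mul_inv_rev, RelIso.mul_apply, RelIso.mul_apply, this]
    · change x⁻¹ (e i) < y⁻¹ (e i) at hi2
      change (x * z)⁻¹ (e i) < (y * z)⁻¹ (e i)
      rw [mul_inv_rev, mul_inv_rev, RelIso.mul_apply, RelIso.mul_apply]
      exact (z⁻¹).lt_iff_lt.2 hi2
  · rw [hF heq]

/-- Translation by `a` on the real line. -/
noncomputable def tr (a : ℝ) : ℝ ≃o ℝ := OrderIso.addRight a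

/-- The order automorphism with support `(0, 2)`. -/
noncomputable def h0 : ℝ ≃o ℝ where
  toFun x := max x (min (2 * x) (x / 2 + 1))
  invFun x := min x (max (x / 2) (2 * (x - 1)))
  left_inv x := by
    simp only
    rcases le_total x 0 with h | h
    · rw [max_eq_left, min_eq_left]
      · exact le_max_of_le_left (by linarith)
      · exact min_le_of_left_le (by linarith)
    · rcases le_total 2 x with h2 | h2
      · rw [max_eq_left, min_eq_left]
        · exact le_max_of_le_right (by linarith)
        · exact min_le_of_right_le (by linarith)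
      · rcases le_total (2 * x) (x / 2 + 1) with h3 | h3
        · rw [min_eq_left h3, max_eq_right (by linarith : x ≤ 2 * x), max_eq_left (by linarith),
            min_eq_right (by linarith)]
          ring
        · rw [min_eq_right h3, max_eq_right (by linarith : x ≤ x / 2 + 1),
            max_eq_right (by linarith), min_eq_right (by linarith)]
          ring
  right_inv x := by
    simp only
    rcases le_total x 0 with h | h
    · rw [min_eq_left, max_eq_left]
      · exact min_le_of_left_le (by linarith)
      · exact le_max_of_le_left (by linarith)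
    · rcases le_total 2 x with h2 | h2
      · rw [min_eq_left, max_eq_left]
        · exact min_le_of_right_le (by linarith)
        · exact le_max_of_le_right (by linarith)
      · rcases le_total (x / 2) (2 * (x - 1)) with h3 | h3
        · rw [max_eq_right h3, min_eq_right (by linarith : 2 * (x - 1) ≤ x),
            min_eq_right (by linarith), max_eq_right (by linarith)]
          ring
        · rw [max_eq_left h3, min_eq_right (by linarith : x / 2 ≤ x),
            min_eq_left (by linarith), max_eq_right (by linarith)]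
          ring
  map_rel_iff' := by
    intro a b
    have hm : StrictMono fun x : ℝ => max x (min (2 * x) (x / 2 + 1)) := by
      intro x y hxy
      exact max_lt_max hxy (min_lt_min (by linarith) (by linarith))
    exact hm.le_iff_le

theorem h0_apply (x : ℝ) : h0 x = max x (min (2 * x) (x / 2 + 1)) := rfl

theorem h0_fix {x : ℝ} (h : x ≤ 0 ∨ 2 ≤ x) : h0 x = x := by
  rw [h0_apply]
  rcases h with h | h
  · exact max_eq_left (min_le_of_left_le (by linarith))
  · exact max_eq_left (min_le_of_right_le (by linarith))

theorem h0_gt {x : ℝ} (h : 0 < x) (h2 : x < 2) : x < h0 x := by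
  rw [h0_apply]
  exact lt_max_of_lt_right (lt_min (by linarith) (by linarith))

theorem tr_apply (a x : ℝ) : tr a x = x + a := rfl

theorem tr_inv_apply (a x : ℝ) : (tr a)⁻¹ x = x - a := by
  change (tr a).symm x = x - a
  rw [OrderIso.symm_apply_eq, tr_apply]
  ring

theorem tr_add (a b : ℝ) : tr (a + b) = tr a * tr b := by
  ext x
  rw [RelIso.mul_apply, tr_apply, tr_apply, tr_apply]
  ring

/-- Translations as a homomorphism. -/
noncomputable def T : Multiplicative ℝ →* (ℝ ≃o ℝ) where
  toFun a := tr a.toAdd
  map_one' := by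
    ext x
    change x + 0 = x
    ring
  map_mul' a b := tr_add _ _

theorem tr_zpow (a : ℝ) (m : ℤ) : (tr a) ^ m = tr (m * a) := by
  have h := map_zpow T (Multiplicative.ofAdd a) m
  have h2 : T (Multiplicative.ofAdd a) = tr a := rfl
  rw [h2] at h
  rw [← h, ← ofAdd_zsmul, zsmul_eq_mul]
  rfl

/-- The conjugate of `h0` by a translation. -/
theorem conj_apply (τ x : ℝ) : (tr τ * h0 * (tr τ)⁻¹) x = h0 (x - τ) + τ := by
  rw [RelIso.mul_apply, RelIso.mul_apply, tr_inv_apply, tr_apply]

theorem commute_of_far {τ : ℝ} (h : 2 ≤ |τ|) : Commute (tr τ * h0 * (tr τ)⁻¹) h0 := by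
  have hd : Equiv.Perm.Disjoint (tr τ * h0 * (tr τ)⁻¹).toEquiv h0.toEquiv := by
    intro x
    change (tr τ * h0 * (tr τ)⁻¹) x = x ∨ h0 x = x
    by_cases hx : x ≤ 0 ∨ 2 ≤ x
    · exact Or.inr (h0_fix hx)
    · left
      push Not at hx
      rw [conj_apply, h0_fix]
      · ring
      · rcases le_abs.1 h with h | h
        · left; linarith
        · right; linarith
  have hc := hd.commute
  have : ∀ x, (tr τ * h0 * (tr τ)⁻¹) (h0 x) = h0 ((tr τ * h0 * (tr τ)⁻¹) x) := fun x =>
    congrArg (fun g : Equiv.Perm ℝ => g x) hc.eq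
  apply RelIso.ext
  intro x
  rw [RelIso.mul_apply, RelIso.mul_apply]
  exact this x

theorem not_commute_of_near {τ : ℝ} (h1 : 0 < τ) (h2 : τ < 2) :
    ¬ Commute (tr τ * h0 * (tr τ)⁻¹) h0 := by
  intro hc
  obtain ⟨z, hz⟩ := h0.surjective (2 - τ)
  have hz0 : 0 < z := by
    by_contra hcon
    have := h0_fix (x := z) (Or.inl (not_lt.1 hcon))
    linarith
  have hz2 : z < 2 := by
    by_contra hcon
    have := h0_fix (x := z) (Or.inr (not_lt.1 hcon))
    linarith
  have hz3 := h0_gt hz0 hz2
  have h3 : (tr τ * h0 * (tr τ)⁻¹) (z + τ) = 2 := by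
    rw [conj_apply, show z + τ - τ = z by ring, hz]
    ring
  have h4 : (tr τ * h0 * (tr τ)⁻¹) (h0 (z + τ)) = h0 ((tr τ * h0 * (tr τ)⁻¹) (z + τ)) := by
    have := congrArg (fun g : ℝ ≃o ℝ => g (z + τ)) hc.eq
    simpa only [RelIso.mul_apply] using this
  rw [h3, h0_fix (Or.inr le_rfl), ← h3] at h4
  have h5 := (tr τ * h0 * (tr τ)⁻¹).injective h4
  have h6 := h0_gt (x := z + τ) (by linarith) (by linarith)
  linarith

/-- The three generators. -/
noncomputable def gens (α : ℝ) : Fin 3 → (ℝ ≃o ℝ) := ![tr 1, tr α, h0]

/-- The homomorphism from the free group of rank three. -/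
noncomputable def H (α : ℝ) : FreeGroup (Fin 3) →* (ℝ ≃o ℝ) := FreeGroup.lift (gens α)

/-- The word `c = t ^ m * s ^ n`. -/
def cw (m n : ℤ) : FreeGroup (Fin 3) := FreeGroup.of 0 ^ m * FreeGroup.of 1 ^ n

theorem H_cw (α : ℝ) (m n : ℤ) : H α (cw m n) = tr (m + n * α) := by
  unfold cw H
  rw [map_mul, map_zpow, map_zpow, FreeGroup.lift_apply_of, FreeGroup.lift_apply_of]
  change (tr 1) ^ m * (tr α) ^ n = _
  rw [tr_zpow, tr_zpow, ← tr_add, mul_one]

/-- The separating words. -/
def word (m n : ℤ) : FreeGroup (Fin 3) :=
  (cw m n * FreeGroup.of 2 * (cw m n)⁻¹) * FreeGroup.of 2 *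
    (cw m n * FreeGroup.of 2 * (cw m n)⁻¹)⁻¹ * (FreeGroup.of 2)⁻¹

theorem H_word (α : ℝ) (m n : ℤ) : H α (word m n) = 1 ↔
    Commute (tr (m + n * α) * h0 * (tr (m + n * α))⁻¹) h0 := by
  have h2 : H α (FreeGroup.of 2) = h0 := by
    unfold H
    rw [FreeGroup.lift_apply_of]
    rfl
  unfold word
  simp only [map_mul, map_inv, H_cw, h2]
  rw [mul_inv_eq_one, mul_inv_eq_iff_eq_mul]
  rfl

/-- Different parameters give different kernels. -/
theorem exists_word {α β : ℝ} (hab : α ≠ β) : ∃ w, H α w = 1 ∧ H β w ≠ 1 := by
  have hpos : 0 < |α - β| := abs_pos.2 (sub_ne_zero.2 hab)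
  obtain ⟨n, hn⟩ := exists_nat_gt (3 / |α - β|)
  have hn3 : 3 < n * |α - β| := by rwa [div_lt_iff₀ hpos] at hn
  set m : ℤ := ⌊-((n : ℝ) * β)⌋ + 1 with hm
  have hm1 : -((n : ℝ) * β) < m := by
    rw [hm]; push_cast; exact Int.lt_floor_add_one _
  have hm2 : (m : ℝ) ≤ -((n : ℝ) * β) + 1 := by
    rw [hm]; push_cast; linarith [Int.floor_le (-((n : ℝ) * β))]
  refine ⟨word m n, (H_word _ _ _).2 (commute_of_far ?_), fun h => ?_⟩
  · have h1 : (m : ℝ) + ((n : ℤ) : ℝ) * α = (m + n * β) + n * (α - β) := by
      push_cast; ring
    rw [h1]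
    have h2 : |(n : ℝ) * (α - β)| = n * |α - β| := by
      rw [abs_mul, Nat.abs_cast]
    have h3 : |(m : ℝ) + n * β| ≤ 1 := by
      rw [abs_le]; constructor <;> linarith
    have h4 := abs_sub_abs_le_abs_sub ((n : ℝ) * (α - β)) (-(m + n * β))
    rw [h2, abs_neg, sub_neg_eq_add, add_comm ((n : ℝ) * (α - β))] at h4
    linarith
  · refine not_commute_of_near (τ := m + ((n : ℤ) : ℝ) * β) ?_ ?_ ((H_word _ _ _).1 h)
    · push_cast; linarith
    · push_cast; linarith

/-- The groups: subgroups of the group of order automorphisms of the real line generated by the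
translations by `1` and by `α` and one further element. -/
abbrev Gα (α : ℝ) : Type v := ULift.{v} (H α).range

theorem surj (α : ℝ) : Function.Surjective
    ((MulEquiv.ulift.symm.toMonoidHom : (H α).range →* Gα.{v} α).comp (H α).rangeRestrict) := by
  intro x
  obtain ⟨y, hy⟩ := (H α).rangeRestrict_surjective x.down
  exact ⟨y, by
    apply ULift.ext
    exact hy⟩

/-- **No countable group contains every finitely generated right-orderable group.**
For every group `U` of cardinality less than the continuum - in particular for every countable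
group `U`, right-orderable or not - there is a finitely generated, hence countable,
right-orderable group that does not embed into `U`. In particular there is no universal
countable right-orderable group. -/
theorem result (U : Type u) [Group U] (hU : Cardinal.mk U < Cardinal.continuum) :
    ∃ (G : Type v) (_ : Group G), Group.FG G ∧ Countable G ∧ RightOrderable G ∧
      ¬ ∃ φ : G →* U, Function.Injective φ := by
  by_contra hcon
  push Not at hcon
  have hG : ∀ α : ℝ, ∃ φ : Gα.{v} α →* U, Function.Injective φ := by
    intro α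
    have hcount : Countable (FreeGroup (Fin 3)) := by
      have : Function.Surjective (FreeGroup.mk : List (Fin 3 × Bool) → FreeGroup (Fin 3)) :=
        Quot.mk_surjective
      exact this.countable
    refine hcon (Gα.{v} α) inferInstance ?_ ?_ ?_
    · exact Group.fg_of_surjective (surj.{v} α)
    · exact (surj.{v} α).countable
    · exact RightOrderable.of_injective
        ((H α).range.subtype.comp (MulEquiv.ulift : Gα.{v} α ≃* (H α).range).toMonoidHom)
        (Subtype.val_injective.comp MulEquiv.ulift.injective) (rightOrderable_orderIso ℝ)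
  choose φ hφ using hG
  let ψ : ℝ → (FreeGroup (Fin 3) →* U) := fun α => (φ α).comp
    ((MulEquiv.ulift.symm.toMonoidHom : (H α).range →* Gα.{v} α).comp (H α).rangeRestrict)
  have hψ : ∀ α w, ψ α w = 1 ↔ H α w = 1 := by
    intro α w
    constructor
    · intro h
      have h1 : φ α (ULift.up ((H α).rangeRestrict w)) = φ α 1 := by
        rw [map_one]; exact h
      have h2 := hφ α h1
      have h3 : (H α).rangeRestrict w = 1 := congrArg ULift.down h2
      have h4 := congrArg Subtype.val h3
      simpa using h4
    · intro h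
      have h3 : (H α).rangeRestrict w = 1 := Subtype.ext h
      change φ α (ULift.up ((H α).rangeRestrict w)) = 1
      rw [h3]
      exact map_one (φ α)
  have hcard : Cardinal.mk (Fin 3 → U) < Cardinal.continuum := by
    rcases finite_or_infinite U with h | h
    · exact (Cardinal.lt_aleph0_of_finite _).trans Cardinal.aleph0_lt_continuum
    · rw [Cardinal.mk_pi, Cardinal.prod_const, Cardinal.mk_fin]
      simp only [Cardinal.lift_natCast, Cardinal.lift_uzero, Cardinal.power_natCast]
      have := Cardinal.power_nat_eq (c := Cardinal.mk U) (n := 3)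
        (Cardinal.aleph0_le_mk U) (by norm_num)
      rw [this]
      exact hU
  have hnotinj : ¬ Function.Injective ψ := by
    intro hinj
    have h1 : Function.Injective
        (fun α => (FreeGroup.lift (α := Fin 3) (β := U)).symm (ψ α)) :=
      (FreeGroup.lift (α := Fin 3) (β := U)).symm.injective.comp hinj
    have h2 := Cardinal.mk_le_of_injective
      (ULift.up_injective.comp (h1.comp (ULift.down_injective (α := ℝ))) :
        Function.Injective (fun x : ULift.{u} ℝ => (ULift.up.{0} ((FreeGroup.lift (α := Fin 3)
          (β := U)).symm (ψ x.down)) : ULift.{0} (Fin 3 → U))))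
    rw [Cardinal.mk_uLift, Cardinal.mk_uLift, Cardinal.mk_real, Cardinal.lift_continuum,
      Cardinal.lift_uzero] at h2
    exact absurd hcard (not_lt.2 h2)
  rw [Function.Injective] at hnotinj
  push Not at hnotinj
  obtain ⟨α, β, hab, hne⟩ := hnotinj
  obtain ⟨w, h1, h2⟩ := exists_word hne
  exact h2 ((hψ β w).1 (hab ▸ (hψ α w).2 h1))

end Pool.Agent.Results.MP_49314d_al.NoUniversalRO
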